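import Pool.Agent.helper74.NL.Spec
import Pool.Agent.helper36.MP.SpecZ
import Pool.Agent.helper54.V3.SpecT
import Pool.Agent.helper98.ILF.Poly

/-!
# Project br: (MP_af9036_an, MP_70a088_an): the bridge

THEOREM (`BRG_stmt`). If `c ∈ M_n` has distance at least `r > 0` from `H_n`, then the interior of the filled
Julia set of `f(z) = z ^ n + c` is empty, there is a continuous vector field `v` with
`v(f z) = f'(z) v(z) + 1` and `|(v(z+a)-v(z))/a - (v(z+b)-v(z))/b| ≤ (4000/r)(1+|log|a/b||)`, its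
`∂/∂z̄` derivative `m` is bounded by `4000/r`, `f`-invariant, supported on the Julia set, `v = -(1/π) CT m`,
and `m/|m|` is an invariant line field of `f`.

Parts: T (topology of the interior of the filled Julia set, primitives), C (no periodic Fatou
components), R (recurrent domains), N (no wandering domains, infinitesimal Sullivan argument),
V (the vector field). Together C, R, N show that the interior is empty if all cycles are repelling.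

RULES. File `Pool/Agent/<seat>/BR/XX.lean`, `import Pool.Agent.helper45.BR.Spec` (and any proved module you
want to use), `set_option autoImplicit false`, `open Complex Metric Set Filter Topology MeasureTheory MPS
Pool.Agent.helper98.ILF Pool.Agent.helper16.Multibrot`, `noncomputable section`, `namespace BR`,
`theorem XX (h : YY_stmt) ... : XX_stmt`. Any other statement of this file and of `MPS` (SpecN, SpecZ), `NLF`
(helper74/NL/Spec), `V3` (helper54/V3/SpecT) may be a hypothesis (no circles); the proved theorems of these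
projects may also be imported. Auxiliary lemmas prefixed `XX_`.

Notation: `f = fc n c` (`fc n c = fun w => w ^ n + c` by `rfl`), `K = filled n c` (helper98: closed,
compact, `f⁻¹ K = K`), `W = interior K`, `mlt n k c z = (f^k)'(z)`, `fd n z = f'(z)`.
-/

set_option autoImplicit false

open Complex Metric Set Filter Topology MeasureTheory MPS Pool.Agent.helper98.ILF
  Pool.Agent.helper16.Multibrot

noncomputable section

namespace BR

/-! ## Definitions -/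

/-- `U` is a component of the interior of the filled Julia set. -/
def IsComp (n : ℕ) (c : ℂ) (U : Set ℂ) : Prop :=
  ∃ z ∈ interior (filled n c), U = connectedComponentIn (interior (filled n c)) z

/-- all cycles are repelling. -/
def AR (n : ℕ) (c : ℂ) : Prop :=
  ∀ (k : ℕ) (z : ℂ), 0 < k → (fc n c)^[k] z = z → 1 < ‖mlt n k c z‖

/-- bounded complementary components of compact subsets of `U` lie in `U`. -/
def NoHole (U : Set ℂ) : Prop := ∀ Γ ⊆ U, IsCompact Γ → ∀ p ∉ Γ,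
  Bornology.IsBounded (connectedComponentIn Γᶜ p) → connectedComponentIn Γᶜ p ⊆ U

/-- integral over a segment. -/
def sI (h : ℂ → ℂ) (a b : ℂ) : ℂ := ∫ t in (0 : ℝ)..1, (b - a) * h (a + t * (b - a))

/-- integral over the polygon `γ 0, ..., γ m`. -/
def pI (h : ℂ → ℂ) (γ : ℕ → ℂ) (m : ℕ) : ℂ := ∑ i ∈ Finset.range m, sI h (γ i) (γ (i + 1))

/-- the polygon `γ 0, ..., γ m` as a set. -/
def pS (γ : ℕ → ℂ) (m : ℕ) : Set ℂ := ⋃ i ∈ Finset.range m, segment ℝ (γ i) (γ (i + 1))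

/-- `∂/∂z̄`. -/
def dbar (φ : ℂ → ℂ) (z : ℂ) : ℂ := (fderiv ℝ φ z 1 + I * fderiv ℝ φ z I) / 2

/-- a bounded invariant Beltrami form (no condition on the Julia set). -/
structure BF (n : ℕ) (c : ℂ) (μ : ℂ → ℂ) : Prop where
  meas : Measurable μ
  bd : ∀ z, ‖μ z‖ ≤ 1
  supp : ∀ z, μ z ≠ 0 → ‖z‖ < 4
  inv : ∀ᵐ z : ℂ, μ (z ^ n + c) * (starRingEnd ℂ) (fd n z) / fd n z = μ z

/-- a recurrent domain without periodic points (these do not exist). -/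
structure RD (g : ℂ → ℂ) (U : Set ℂ) : Prop where
  op : IsOpen U
  co : IsConnected U
  bd : U ⊆ ball 0 4
  di : DifferentiableOn ℂ g U
  mt : MapsTo g U U
  nh : NoHole U
  np : ∀ k, 0 < k → ∀ z ∈ U, g^[k] z ≠ z
  rc : ∀ L ⊆ U, IsCompact L → ∀ ε > (0 : ℝ), ∀ N : ℕ, ∃ m ≥ N, ∀ z ∈ L, ‖g^[m] z - z‖ ≤ ε

/-- a wandering sequence of open sets on which `f` is injective. -/
structure Wand (n : ℕ) (c : ℂ) (U : ℕ → Set ℂ) : Prop where
  comp : ∀ k, IsComp n c (U k)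
  mt : ∀ k, MapsTo (fc n c) (U k) (U (k + 1))
  inj : ∀ k, InjOn (fc n c) (U k)
  disj : ∀ j k, j ≠ k → Disjoint (U j) (U k)
  n0 : ∀ k, (0 : ℂ) ∉ U k

/-- the inequality of cross ratio type for a vector field on a set `Ω`. -/
def CR (M : ℝ) (v : ℂ → ℂ) (Ω : Set ℂ) : Prop := ∀ z a b : ℂ, a ≠ 0 → b ≠ 0 → z ∈ Ω → z + a ∈ Ω →
  z + b ∈ Ω → ‖(v (z + a) - v z) / a - (v (z + b) - v z) / b‖ ≤ M * (1 + |Real.log (‖a‖ / ‖b‖)|)

/-- the partial sums of the vector field. -/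
def SN (n : ℕ) (c : ℂ) (N : ℕ) (z : ℂ) : ℂ := -∑ j ∈ Finset.range N, 1 / mlt n (j + 1) c z

/-- the vector field on the basin of infinity. -/
def VV (n : ℕ) (c z : ℂ) : ℂ := -∑' j : ℕ, 1 / mlt n (j + 1) c z

/-! ## Part T: topology -/

/-- BAS (short/medium): basic facts.
PROOF. `filled ⊆ ball 0 4`: `TBD` (if `4 ≤ ‖z‖` the norms of the orbit grow by 9 at every step, so they exceed `2 + ‖c‖ ≤ 5`).
`f⁻¹ K = K` is `preimage_filled`; `f` is open and continuous (`isOpenMap_pow`), so `f W ⊆ W` and `f⁻¹ W ⊆ W`. `mlt` is the product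
of the `fd n (f^j z)` (chain rule). Rotation: `f (ω z) = f z` if `ω ^ n = 1`. -/
def BAS_stmt : Prop := ∀ (n : ℕ) (c : ℂ), 2 ≤ n → ‖c‖ ≤ 3 →
  filled n c ⊆ ball 0 4 ∧ (∀ z k, z ∈ filled n c → (fc n c)^[k] z ∈ filled n c) ∧
  (∀ z, z ∈ interior (filled n c) ↔ fc n c z ∈ interior (filled n c)) ∧
  (∀ k z, mlt n k c z = ∏ j ∈ Finset.range k, fd n ((fc n c)^[j] z)) ∧
  (∀ z ω : ℂ, ω ^ n = 1 → z ∈ interior (filled n c) → ω * z ∈ interior (filled n c))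

/-- MXP (short): maximum principle.
PROOF. For every `k` the function `f^k` is bounded by `2 + ‖c‖` on the frontier of the bounded open set `N`, so on `N`
(`Complex.norm_le_of_forall_mem_frontier_norm_le`). -/
def MXP_stmt : Prop := ∀ (n : ℕ) (c : ℂ) (N : Set ℂ), IsOpen N → Bornology.IsBounded N →
  frontier N ⊆ filled n c → N ⊆ filled n c

/-- CMP (short/medium): components of `W`.
PROOF. `IsOpen.connectedComponentIn`, `isPreconnected_connectedComponentIn.subset_connectedComponentIn`,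
`connectedComponentIn_eq`; a frontier point of `U` lies in the closed set `K`; if it were in `W` its component (open) would meet `U`,
so it would be `U`, but `U` is open. -/
def CMP_stmt : Prop := ∀ (n : ℕ) (c : ℂ) (U : Set ℂ), 2 ≤ n → ‖c‖ ≤ 3 → IsComp n c U →
  IsOpen U ∧ IsConnected U ∧ U ⊆ interior (filled n c) ∧ U ⊆ ball 0 4 ∧
  (∀ S ⊆ interior (filled n c), IsPreconnected S → (S ∩ U).Nonempty → S ⊆ U) ∧
  frontier U ⊆ filled n c \ interior (filled n c) ∧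
  (∀ U', IsComp n c U' → U = U' ∨ Disjoint U U') ∧
  (∀ k, ∀ z ∈ U, (fc n c)^[k] '' U ⊆
    connectedComponentIn (interior (filled n c)) ((fc n c)^[k] z))

/-- HUL (medium). uses: MXP, CMP.
PROOF. Let `N` be the component of `p` in the open set `Γᶜ`, bounded. `N` is open; `frontier N ⊆ Γ` (a frontier point in `Γᶜ` has a connected
neighbourhood in `Γᶜ` which meets `N`, so it is in `N`). MXP: `N ⊆ K`, so `N ⊆ W`. `frontier N` is not empty (`N` is not empty and not `ℂ`); take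
`q ∈ frontier N ⊆ Γ ⊆ U`; `U` is a neighbourhood of `q`, so `U` meets `N`; CMP: `N ⊆ U`. -/
def HUL_stmt : Prop := ∀ (n : ℕ) (c : ℂ) (U : Set ℂ), 2 ≤ n → ‖c‖ ≤ 3 → IsComp n c U → NoHole U

/-- WND (medium): winding numbers vanish in the unbounded component.
PROOF. `J p = pI (fun z => 1/(z-p)) γ m`. Off `Γ = pS γ m` it has the derivative `pI (fun z => 1/(z-p)^2) γ m` (differentiation under the integral,
`hasDerivAt_integral_of_dominated_loc_of_deriv_le`, or Lipschitz estimates), which is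
`∑_i (-1/(γ (i+1) - p) + 1/(γ i - p)) = 0` (fundamental theorem of calculus on each segment, telescoping, `γ 0 = γ m`). So `J` is constant on the open connected
set `connectedComponentIn Γᶜ p` (`IsOpen.is_const_of_deriv_eq_zero` or similar). `‖J q‖ ≤ length / dist(q, Γ)`, and this component contains points `q` of arbitrarily large norm. -/
def WND_stmt : Prop := ∀ (γ : ℕ → ℂ) (m : ℕ) (p : ℂ), γ 0 = γ m → p ∉ pS γ m →
  ¬ Bornology.IsBounded (connectedComponentIn (pS γ m)ᶜ p) → pI (fun z => 1 / (z - p)) γ m = 0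

/-- CPF (medium): the formula of Cauchy and Pompeiu.
PROOF. Translate to `z = 0`. Polar coordinates (`Complex.integral_comp_polarCoord_symm`): with `F(r,θ) = φ(r e^{iθ})`, `dbar φ (r e^{iθ}) = e^{iθ}/2 (∂_r F + (i/r) ∂_θ F)`,
`∫ dbar φ ζ/ζ = ½ ∫_θ ∫_{r>0} (∂_r F + (i/r) ∂_θ F) dr dθ`. The first term gives `½ ∫_θ (-φ 0) = -π φ 0`; the second vanishes: for every `r` the integral of
`∂_θ F` over a period is `0` (`∂_θ F / r` is bounded: `‖∂_θ F‖ ≤ r ‖fderiv φ‖`, compactly supported, so Fubini applies). (Any other proof is welcome, e.g. Green's formula on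
the complement of a small disc, or `Mathlib` rectangle formula `Complex.integral_boundary_rect_eq...` with a removed disc.) -/
def CPF_stmt : Prop := ∀ (φ : ℂ → ℂ) (z : ℂ), ContDiff ℝ 1 φ → HasCompactSupport φ →
  Integrable (fun ζ : ℂ => dbar φ ζ / (ζ - z)) ∧ ∫ ζ : ℂ, dbar φ ζ / (ζ - z) = -Real.pi * φ z

/-- POL (medium/long). uses: WND, CPF.
PROOF. `Γ = pS γ m` compact, `L = Γ ∪ {p ∉ Γ | the component of Γᶜ at p is bounded}`: `Lᶜ` is the union of the unbounded components (open), `L` is bounded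
(all points of large norm lie in one unbounded component), and `L ⊆ U` by `NoHole`. Choose `χ : ℂ → ℝ` smooth with compact support in `U` and `χ = 1` on a neighbourhood of `L`
(`exists_contDiff_..`/`exists_smooth_zero_one_of_isClosed` for a compact neighbourhood of `L`). `φ = χ h` (extended by `0`) is `C¹` with compact support, `φ = h` on `Γ`, and `dbar φ = 0` near `L`
(there `φ = h` is holomorphic). CPF: `h z = -(1/π) ∫ dbar φ ζ/(ζ - z)` for `z ∈ Γ`. Insert in `pI h γ m` and exchange the integrals (on each segment; `‖dbar φ ζ‖/‖ζ - z‖` is integrable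
over `ζ`, uniformly in `z`: `MI`): `pI h γ m = (1/π) ∫ dbar φ ζ · pI (fun z => 1/(z - ζ)) γ m = 0` because `dbar φ ζ ≠ 0` only for `ζ ∉ L` (WND). -/
def POL_stmt : Prop := ∀ (U : Set ℂ) (h : ℂ → ℂ) (γ : ℕ → ℂ) (m : ℕ), IsOpen U → NoHole U →
  DifferentiableOn ℂ h U → pS γ m ⊆ U → γ 0 = γ m → pI h γ m = 0

/-- PRM (medium). uses: POL.
PROOF. Fix `z₀ ∈ U`. Every `z ∈ U` is the end of a polygon in `U` starting at `z₀` (the set of such `z` is open and closed in `U`). By POL the value `H z = pI h γ m` does not depend on the polygon (concatenate one with the reversed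
other: `sI h b a = - sI h a b`). For `z'` in a ball around `z` contained in `U`: `H z' - H z = sI h z z'`, and `sI h z z' = (z'-z)(h z + o(1))`. -/
def PRM_stmt : Prop := ∀ (U : Set ℂ) (h : ℂ → ℂ), IsOpen U → IsConnected U → NoHole U →
  DifferentiableOn ℂ h U → ∃ H : ℂ → ℂ, ∀ z ∈ U, HasDerivAt H (h z) z

/-- LGH (short). uses: PRM. PROOF. Primitive `ℓ` of `h'/h`; `h exp(-ℓ)` has derivative `0`, so it is a constant `≠ 0` on the connected set `U`; add a constant to `ℓ`. -/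
def LGH_stmt : Prop := ∀ (U : Set ℂ) (h : ℂ → ℂ), IsOpen U → IsConnected U → NoHole U →
  DifferentiableOn ℂ h U → (∀ z ∈ U, h z ≠ 0) →
  ∃ l : ℂ → ℂ, DifferentiableOn ℂ l U ∧ ∀ z ∈ U, Complex.exp (l z) = h z

/-- INJ (medium). uses: BAS, CMP, HUL, LGH.
PROOF. Let `x ≠ y` in `U`, `x ^ n = y ^ n`; `y = ω x`, `ω ^ n = 1`, `ω ≠ 1` (`x ≠ 0`). `ω U ⊆ W` (BAS) is connected and meets `U` (in `y`), so `ω U ⊆ U` (CMP). LGH with `h z = z`: `exp (l z) = z` on `U`.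
`l (ω z) - l z` is continuous on `U` with exponential `ω`, so it is a constant `κ` (connected; the values lie in a discrete set), `exp κ = ω`. `l (ω^n z) = l z + n κ` and `ω^n = 1`: `κ = 0`, `ω = 1`. -/
def INJ_stmt : Prop := ∀ (n : ℕ) (c : ℂ) (U : Set ℂ), 2 ≤ n → ‖c‖ ≤ 3 → IsComp n c U →
  (0 : ℂ) ∉ U → InjOn (fc n c) U

/-- JFR (short/medium): the Julia set.
PROOF. `⊆`: `juliaSet_subset`. `⊇`: let `b ∈ frontier K` (so `b ∈ K`) and suppose `b ∈ fatouSet`, the interior of the set of equicontinuity; then for `z` near `b` the whole orbit of `z` is at chordal distance `< ε` from the orbit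
of `b`, which is bounded by `2 + ‖c‖`; for `ε` small (e.g. `ε = 1/(100 (3 + ‖c‖)^2)`) all points of the orbit of `z` have norm `≤ 100 (3+‖c‖)^2`-ish, so `z ∈ K` (`exists_of_notMem_filled`: otherwise the orbit is unbounded). So `b ∈ interior K`,
contradiction. (Equicontinuity at the single point `b` is enough.) -/
def JFR_stmt : Prop := ∀ (n : ℕ) (c : ℂ), 2 ≤ n →
  juliaSet (fun z : ℂ => z ^ n + c) = frontier (filled n c)

/-! ## Part C: periodic components -/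

/-- NPP (short). uses: BAS. PROOF. Let `f^k z = z`, `z ∈ W`, `ball z ρ ⊆ K`: `(f^(k j))'(z) = (mlt n k c z)^j` is unbounded, but it is `≤ 4/ρ` by Cauchy's estimate (`‖f^m‖ < 4` on `K`). -/
def NPP_stmt : Prop := ∀ (n : ℕ) (c : ℂ), 2 ≤ n → ‖c‖ ≤ 3 → AR n c → ∀ (k : ℕ) (z : ℂ), 0 < k →
  z ∈ interior (filled n c) → (fc n c)^[k] z ≠ z

/-- CTR (medium): no constant limits in `U`. uses: BAS, NPP.
PROOF. `w` the constant value, `closedBall w ρ ⊆ U`, `ρ > 0`. The convergence is uniform on the compact `closedBall w ρ` along the ultrafilter, so there is `k ≥ 1` (`𝒰 ≤ atTop`) with `‖g^k z - w‖ ≤ ρ/4` there. On `closedBall w (ρ/2)` the derivative of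
`g^k` is `≤ (ρ/4)/(ρ/2) = 1/2` (Cauchy's estimate), and `g^k` maps it into itself: by the contraction principle it has a fixed point `p ∈ U`; `p` is a periodic point of `f` in `W`: NPP. -/
def CTR_stmt : Prop := ∀ (n : ℕ) (c : ℂ) (U : Set ℂ) (m : ℕ) (u : Ultrafilter ℕ) (ψ : ℂ → ℂ) (w : ℂ), 2 ≤ n →
  ‖c‖ ≤ 3 → AR n c → IsComp n c U → 0 < m → MapsTo ((fc n c)^[m]) U U → (u : Filter ℕ) ≤ atTop →
  TendstoLocallyUniformlyOn (fun k => ((fc n c)^[m])^[k]) ψ u U → w ∈ U → ¬ (∀ z ∈ U, ψ z = w)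

/-- LIM (short/medium): a general lemma.
PROOF. Every cluster point of `x` is a fixed point of `G` (`‖x (k+1) - x k‖ → 0` and continuity). The finitely many fixed points in the compact set have distance `≥ 3 δ`; for large `k` every `x k` is within `δ` of some fixed point
(compactness) and `‖x (k+1) - x k‖ < δ`, so it is always the same fixed point `p`; repeating with smaller `δ`, `x k → p`. -/
def LIM_stmt : Prop := ∀ (G : ℂ → ℂ) (x : ℕ → ℂ) (C : Set ℂ), Continuous G → IsCompact C →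
  (∀ k, x k ∈ C) → (∀ k, x (k + 1) = G (x k)) → {z ∈ C | G z = z}.Finite →
  Tendsto (fun k => x (k + 1) - x k) atTop (𝓝 0) → ∃ p ∈ C, G p = p ∧ Tendsto x atTop (𝓝 p)

/-- ESC (medium/long): orbits do not converge to the boundary. uses: BAS, CMP, LIM; V3.TMO, V3.THU.
PROOF. `g = f^m`. Suppose that for every `x ∈ U` and every compact `C ⊆ U` eventually `g^k x ∉ C`. (1) Let `u ≤ atTop` be an ultrafilter, `ψ` the locally uniform limit of `g^k` on `U` along `u` (`V3.TMO`, `‖g^k‖ < 4`). `ψ z ∉ U` for `z ∈ U`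
(otherwise `g^k z` is in a compact ball around `ψ z` for `u`-many `k`). So `ψ` is constant: otherwise by `V3.THU` (applied to `g^k - ψ z`) `g^k z' = ψ z` for some `z' ∈ U`, so `ψ z ∈ U`. (2) `g^k (g x) - g^k x → ψ(g x) - ψ x = 0` along every such `u`, hence
`g^(k+1) x - g^k x → 0`. (3) The fixed points of `g` in `K` are finite in number: they are isolated (`‖mlt‖ > 1`, so `g z - z` has nonzero derivative) and form a compact set. LIM: `g^k x → p`, `g p = p`, `p ∉ U` (a compact ball around `p` in `U` would be visited for ever).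
(4) `p` is repelling: `‖g y - p‖ ≥ λ ‖y - p‖`, `λ > 1`, for `y` near `p`. So `g^k x = p` for large `k`, but `g^k x ∈ U`. Contradiction. -/
def ESC_stmt : Prop := ∀ (n : ℕ) (c : ℂ) (U : Set ℂ) (m : ℕ), 2 ≤ n → ‖c‖ ≤ 3 → AR n c →
  IsComp n c U → 0 < m → MapsTo ((fc n c)^[m]) U U →
  ∃ x ∈ U, ∃ C ⊆ U, IsCompact C ∧ ∃ᶠ k in atTop, ((fc n c)^[m])^[k] x ∈ C

/-- REC (medium/long). V3.TMO. A general lemma on iterates.
PROOF. Let `u ≤ atTop` be an ultrafilter containing `{k | g^k x ∈ C}`, `ψ = lim_u g^k` (locally uniform, `V3.TMO`), `ψ x ∈ C ⊆ U`, not constant by hypothesis. For every `k` let `χ_k = lim_(k' → u) g^(k' - k)` (truncated subtraction;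
`k' ≥ k` for `u`-many `k'`): `χ_k (g^k z) = ψ z` on `U`. Let `χ = lim_(k → u) χ_k` (`V3.TMO`; bounded by 4). For `z` near `x` (`ψ z ∈ U`): `g^k z → ψ z ∈ U`, so `χ_k (g^k z) → χ (ψ z)` (locally uniform convergence), i.e. `χ (ψ z) = ψ z`. The image
under `ψ` of a neighbourhood of `x` is a neighbourhood of `ψ x` (open mapping), so `χ = id` on `U` (identity theorem). Given `L, ε, N`: `‖χ_k - id‖ ≤ ε/2` on `L` for some `k`, then `‖g^(k'-k) - χ_k‖ ≤ ε/2` on `L` for some `k' ≥ k + N`. -/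
def REC_stmt : Prop := ∀ (g : ℂ → ℂ) (U : Set ℂ) (x : ℂ) (C : Set ℂ), IsOpen U → IsConnected U →
  U ⊆ ball 0 4 → DifferentiableOn ℂ g U → MapsTo g U U → x ∈ U → C ⊆ U → IsCompact C →
  (∃ᶠ k in atTop, g^[k] x ∈ C) →
  (∀ (u : Ultrafilter ℕ) (ψ : ℂ → ℂ) (w : ℂ), (u : Filter ℕ) ≤ atTop →
    TendstoLocallyUniformlyOn (fun k => g^[k]) ψ u U → w ∈ U → ¬ (∀ z ∈ U, ψ z = w)) →
  ∀ L ⊆ U, IsCompact L → ∀ ε > (0 : ℝ), ∀ N : ℕ, ∃ m ≥ N, ∀ z ∈ L, ‖g^[m] z - z‖ ≤ ε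

/-! ## Part R: recurrent domains without periodic points do not exist -/

/-- SEQ (short): a sequence of iterates tending to the identity.
PROOF. Exhaust `U` by compact sets `L j` (`CompactExhaustion`, or `{z | 1/(j+1) ≤ dist(z, Uᶜ)} ∩ closedBall`), choose `m j ≥ j` with `‖g^(m j) z - z‖ ≤ 1/(j+1)` on `L j`. -/
def SEQ_stmt : Prop := ∀ (g : ℂ → ℂ) (U : Set ℂ), RD g U → ∃ m : ℕ → ℕ, Tendsto m atTop atTop ∧
  ∀ L ⊆ U, IsCompact L → ∀ ε > (0 : ℝ), ∀ᶠ j in atTop, ∀ z ∈ L, ‖g^[m j] z - z‖ ≤ ε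

/-- ORB (medium): orbits stay in a compact set (an argument of Calka). uses: SEQ.
PROOF. `closedBall x (2ρ) ⊆ U`; all `g^i` are Lipschitz with constant `Λ = 4/ρ` on `closedBall x ρ` (Cauchy's estimate). Let `S = {k | ∀ i, ‖g^(i+k) x - g^i x‖ ≤ ρ}`. For large `j`, `‖g^(i + m j) x - g^i x‖ ≤ Λ ‖g^(m j) x - x‖ ≤ ρ/2` for all `i`.
Claim: there is `M` such that for every `k ∈ S` some `p` with `1 ≤ p ≤ M` has `k + p ∈ S`. Cover `closedBall x ρ` (it contains `g^k x`, `k ∈ S`) by finitely many balls of radius `η`, `2 η Λ ≤ ρ/2`, and choose `k_i ∈ S` with `g^(k_i) x` in the `i`-th ball if possible, and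
`j_i` with `m (j_i) > k_i` and the above property, `p_i = m (j_i) - k_i`. For `k ∈ S` in the same ball: `‖g^(i'+k+p_i) x - g^(i') x‖ ≤ ‖g^(i'+p_i)(g^k x) - g^(i'+p_i)(g^(k_i) x)‖ + ‖g^(i'+m j_i) x - g^(i') x‖ ≤ ρ`. Since `0 ∈ S`, every `k` is `s + l` with `s ∈ S`, `l < M + 1`,
so `g^k x ∈ ⋃_(l ≤ M) g^l (closedBall x ρ)`, a compact subset of `U`. -/
def ORB_stmt : Prop := ∀ (g : ℂ → ℂ) (U : Set ℂ), RD g U → ∀ x ∈ U, ∃ C ⊆ U, IsCompact C ∧
  ∀ k, g^[k] x ∈ C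

/-- CPT (medium): invariant compact sets. uses: ORB; V3.TMO, V3.TUL.
PROOF. `L'` = closure of `⋃_k g^k(L)` (bounded; forward invariant: if it is in `U`, by continuity of `g` on `U`). Suppose `p ∈ L'`, `p ∉ U`: `p = lim g^(k_i) z_i`, `z_i ∈ L`. Along an ultrafilter `u` of indices `i`: `z_i → z ∈ L`, `g^(k_i) → ψ` locally uniformly on `U` (`V3.TMO`), so
`g^(k_i) z_i → ψ z`, i.e. `ψ z = p`. But `g^(k_i) z ∈ C ⊆ U` compact (ORB), so `ψ z ∈ C ⊆ U`. -/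
def CPT_stmt : Prop := ∀ (g : ℂ → ℂ) (U : Set ℂ), RD g U → ∀ L ⊆ U, IsCompact L →
  ∃ L' ⊆ U, IsCompact L' ∧ L ⊆ L' ∧ MapsTo g L' L'

/-- CPB (LONG): comparison of displacements (an argument of H. Cartan). uses: CPT; V3.TMO.
Write `φ_m z = g^m z - z`. PROOF. Suppose not. Exhaust `U` by compact sets `L_j`; with `C = j`, `δ = 1/(j+1)`, `L'' = L_j` there are `m_j`, `s_j ≥ 0` with `‖φ_(m_j)‖ ≤ 1/(j+1)` on `L_j`, `‖φ_(m_j)‖ ≤ s_j` on `closedBall x ρ`, and a point of `L` where `‖φ_(m_j)‖ > j s_j`. Let `L'` be a compact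
forward invariant set containing `L` (CPT), `3 δ₁ < dist(L', Uᶜ)`, `L₁` the closed `2δ₁`-neighbourhood of `L'`, `s'_j = max_(L') ‖φ_(m_j)‖`, attained at `y_j`: `s'_j > j s_j`, `s'_j > 0`, `s'_j → 0`. Let `q_j = ⌊δ₁ / s'_j⌋`. (a) for `i ≤ q_j`, `z ∈ L'`: `‖φ_(m_j i) z‖ ≤ ∑_(l<i) ‖φ_(m_j)(g^(m_j l) z)‖ ≤ i s'_j ≤ δ₁`.
(b) for `w ∈ closedBall x (ρ/2)` and `i ≤ q_j`, by induction on `i`: `‖φ_(m_j i) w‖ ≤ i s_j ≤ δ₁/j ≤ ρ/2` (so the orbit stays in `closedBall x ρ`). (c) for any choice `i_j ≤ q_j` the maps `g^(m_j i_j)` tend to the identity locally uniformly on `U` along every ultrafilter `≤ atTop`: the limit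
exists (`V3.TMO`) and is the identity on `closedBall x (ρ/2)` by (b), so on `U`. Hence `e_j := sup_(i ≤ q_j) sup_(L₁) ‖φ_(m_j i)‖ → 0`. (d) with `m = m_j`, `y = y_j`, `q = q_j`: `φ_(m q) y = ∑_(i<q) φ_m (g^(m i) y)` and `φ_m (g^(m i) y) = g^(m i)(g^m y) - g^(m i) y = φ_m y + [φ_(m i)(g^m y) - φ_(m i) y]`, where the bracket is
`≤ (e_j/δ₁) ‖φ_m y‖` (derivative of `φ_(m i)` on the `δ₁`-neighbourhood of `L'`, Cauchy; `‖g^m y - y‖ = s'_j ≤ δ₁`). So `‖φ_(m q) y‖ ≥ q s'_j (1 - e_j/δ₁) ≥ (δ₁ - s'_j)(1 - e_j/δ₁) → δ₁`, but `‖φ_(m q) y‖ ≤ e_j → 0`. Contradiction. -/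
def CPB_stmt : Prop := ∀ (g : ℂ → ℂ) (U : Set ℂ), RD g U → ∀ (x : ℂ) (ρ : ℝ), 0 < ρ →
  closedBall x ρ ⊆ U → ∀ L ⊆ U, IsCompact L → ∃ C : ℝ, ∃ δ > (0 : ℝ), ∃ L'' ⊆ U, IsCompact L'' ∧
  ∀ m : ℕ, (∀ z ∈ L'', ‖g^[m] z - z‖ ≤ δ) → ∀ s : ℝ, 0 ≤ s →
    (∀ w ∈ closedBall x ρ, ‖g^[m] w - w‖ ≤ s) → ∀ z ∈ L, ‖g^[m] z - z‖ ≤ C * s

/-- VFX (medium): the invariant vector field. uses: SEQ, CPB; V3.TMO, V3.THU.
PROOF. `m j` from SEQ, `closedBall x ρ ⊆ U`, `s_j = max_(closedBall x ρ) ‖φ_(m j)‖ > 0` (`np`), `X_j = φ_(m j)/s_j`. By CPB the `X_j` are eventually bounded on compact sets. Let `u ≤ atTop` be an ultrafilter, `X = lim_u X_j` (`V3.TMO`). `max_(closedBall x ρ) ‖X‖ = 1`. `X` has no zero: otherwise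
(`V3.THU`; `X` is not identically zero near the point by the identity theorem) some `X_j`, `m j > 0`, has a zero, contradicting `np`. `X_j (g z) = (g (g^(m j) z) - g z)/s_j` and `g^(m j) z - z = s_j X_j z → 0` with bounded `X_j z`: the limit is `g'(z) X z`. -/
def VFX_stmt : Prop := ∀ (g : ℂ → ℂ) (U : Set ℂ), RD g U → ∃ X : ℂ → ℂ, DifferentiableOn ℂ X U ∧
  (∀ z ∈ U, X z ≠ 0) ∧ ∀ z ∈ U, X (g z) = deriv g z * X z

/-- RDF (medium): uses: SEQ, VFX, PRM.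
PROOF. `H` a primitive of `1/X` on `U` (PRM). `(H ∘ g)' = g'/X(g) = 1/X = H'` on `U`, so `H (g z) = H z + b` on `U` (connected). `H (g^(m j) z₀) = H z₀ + (m j) b` and `g^(m j) z₀ → z₀`: `(m j) b → 0`, so `b = 0` (`m j ≥ 1`). So `H (g^(m j) z₀) = H z₀`; as `H'(z₀) ≠ 0`, `H` is injective near `z₀`, so
`g^(m j) z₀ = z₀` for large `j`, contradicting `np`. -/
def RDF_stmt : Prop := ∀ (g : ℂ → ℂ) (U : Set ℂ), ¬ RD g U

/-- NPC (short): no periodic components. uses: BAS, CMP, HUL, NPP, CTR, ESC, REC, RDF.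
PROOF. `g = f^m`; ESC gives `x, C`; CTR and REC give `RD.rc`; HUL, NPP, CMP the rest; RDF. -/
def NPC_stmt : Prop := ∀ (n : ℕ) (c : ℂ) (U : Set ℂ) (m : ℕ), 2 ≤ n → ‖c‖ ≤ 3 → AR n c →
  IsComp n c U → 0 < m → ¬ MapsTo ((fc n c)^[m]) U U

/-! ## Part N: no wandering domains -/

/-- WSQ (short/medium). uses: CMP, NPC, INJ.
PROOF. `z₀ ∈ W`, `U k` = component of `f^k z₀` (`∈ W`, BAS). `f (U k) ⊆ U (k+1)` (CMP). If `U j = U k`, `j < k`, then `f^(k-j)` maps `U j` into itself: NPC. So they are pairwise disjoint (CMP), `0` is in at most one of them: shift the sequence. INJ. -/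
def WSQ_stmt : Prop := ∀ (n : ℕ) (c : ℂ), 2 ≤ n → ‖c‖ ≤ 3 → AR n c →
  (interior (filled n c)).Nonempty → ∃ U : ℕ → Set ℂ, Wand n c U

/-- RLB (short/medium): the functional equation and vanishing on the Julia set for `BF`.
PROOF. The proofs of `NLF.IP`, `NLF.REL`, `NLF.JUL` (`Pool/Agent/helper11/NL/IP.lean`, `helper60/NL/REL.lean`, `helper92/NL/JUL.lean`) do not use the field `julia` of `NLF.LF`: copy them. Hypotheses `NLF.CB_stmt`, `NLF.NB_stmt`, `NLF.CTB_stmt`, `NLF.T1_stmt` may be used (all proved, see `Pool/Agent/helper74/NL/Z.lean`). -/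
def RLB_stmt : Prop := ∀ (n : ℕ) (c : ℂ) (μ : ℂ → ℂ), 2 ≤ n → BF n c μ →
  (∀ b : ℂ, fd n b * NLF.CT μ b = NLF.CT μ (b ^ n + c) - NLF.CT μ c) ∧
  (NLF.CT μ c = 0 → ∀ b ∈ juliaSet (fun z : ℂ => z ^ n + c), NLF.CT μ b = 0)

/-- EXT (LONG): extension of a Beltrami form along the grand orbit. uses: BAS, CMP.
PROOF. Let `θ u = conj u / u` (`‖θ u‖ = 1` for `u ≠ 0`, `θ` multiplicative). If `f^i z = f^j x`, `f^i' z = f^j' x'` with `x, x' ∈ U 0`, then `f^(j+i') x = f^(j'+i) x'` lies in `U (j+i')` and in `U (j'+i)`, so `j + i' = j' + i` and `x = x'` (`f^m` is injective on `U 0`). Define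
`E ν z = θ((f^i)'(z)) / θ((f^j)'(x)) · ν x` if `f^i z = f^j x`, `x ∈ U 0` (choose), and `0` if there is no such `(x,i,j)` or `(f^i)'(z) = 0`; the value does not depend on the choice of `(i,j)` when `(f^i)'(z) ≠ 0` for both (replace `(i,j)` by `(i+1,j+1)`: both derivatives are multiplied by
the same factor `f'(f^i z)`, which is not `0` because `0 ∉ U j`), it is linear in `ν`, bounded by `sup ‖ν‖`. `(f^j)'(x) ≠ 0` since `0 ∉ U i`. Invariance off the countable set of `z` with `(f^i)'(z) = 0` for some `i`: for `f z` use `(x, i-1, j)` (or `(x,i,j+1)` if `i = 0`). On `U 0`: `i = j = 0`. Support: `f^i z ∈ U j ⊆ K` gives `z ∈ K`, `‖z‖ < 4`.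
Measurability: `A_(i,j) = {z | f^i z ∈ f^j (U 0)}` is open; on it `x = (f^j|U 0)⁻¹ (f^i z)` is a continuous function of `z` (injective holomorphic maps are homeomorphisms onto open sets), so `E ν` is measurable on each of the countably many sets `A_(i,j) \ {(f^i)' = 0}` which cover its support. -/
def EXT_stmt : Prop := ∀ (n : ℕ) (c : ℂ) (U : ℕ → Set ℂ), 2 ≤ n → ‖c‖ ≤ 3 → Wand n c U →
  ∃ E : (ℂ → ℂ) → (ℂ → ℂ), (∀ ν : ℂ → ℂ, Measurable ν → (∀ z, ‖ν z‖ ≤ 1) → (∀ z, ν z ≠ 0 → z ∈ U 0) →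
    BF n c (E ν) ∧ ∀ z ∈ U 0, E ν z = ν z) ∧
  ∀ (ν₁ ν₂ : ℂ → ℂ) (s t z : ℂ), E (fun w => s * ν₁ w + t * ν₂ w) z = s * E ν₁ z + t * E ν₂ z

/-- OFB (medium): uses: CMP, JFR, RLB; NLF.CTB, NLF.CTH.
PROOF. `a = CT μ` is continuous, bounded by `80`, zero on the Julia set (RLB), so on `frontier U` (CMP, JFR). `A = U \ closedBall z₀ ρ` is open and bounded, `a` is holomorphic on `A` (CTH, `μ = 0` on `A`). For every `N` the function `F z = a z ((z - z₀)/8)^N` is `≤ 80 (ρ/8)^N` on `frontier A ⊆ frontier U ∪ sphere z₀ ρ`, hence on `A`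
(maximum principle): `‖a z‖ ≤ 80 (ρ/‖z-z₀‖)^N → 0`. -/
def OFB_stmt : Prop := ∀ (n : ℕ) (c : ℂ) (U : Set ℂ) (μ : ℂ → ℂ) (z₀ : ℂ) (ρ : ℝ), 2 ≤ n → ‖c‖ ≤ 3 →
  IsComp n c U → 0 < ρ → closedBall z₀ ρ ⊆ U → BF n c μ → (∀ z ∈ U, ρ ≤ ‖z - z₀‖ → μ z = 0) →
  NLF.CT μ c = 0 → ∀ b ∈ U, ρ < ‖b - z₀‖ → NLF.CT μ b = 0

/-- MOM (medium): moments. uses: NLF.CTB (or its proof).
PROOF. `ρ < R < ρ'`. `0 = ∮_(|b-z₀|=R) (b-z₀)^j CT μ b db = ∫ μ z (∮ (b-z₀)^j/(z-b) db)` (Fubini as in the proof of `NLF.CT0`, `Pool/Agent/helper31/NL/CT0.lean`), `j = 0, 1`, and the inner integral is `-2πi (z-z₀)^j` for `‖z-z₀‖ < R` and `0` for `‖z - z₀‖ > R`. Since `μ = 0` for `ρ ≤ ‖z-z₀‖ < R`, the claim follows. -/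
def MOM_stmt : Prop := ∀ (μ : ℂ → ℂ) (z₀ : ℂ) (ρ ρ' : ℝ), 0 < ρ → ρ < ρ' → Measurable μ →
  (∀ z, ‖μ z‖ ≤ 1) → (∀ z, μ z ≠ 0 → ‖z‖ < 4) → (∀ z, ρ ≤ ‖z - z₀‖ → ‖z - z₀‖ < ρ' → μ z = 0) →
  (∀ b, ρ < ‖b - z₀‖ → ‖b - z₀‖ < ρ' → NLF.CT μ b = 0) →
  ∫ z in ball z₀ ρ, μ z = 0 ∧ ∫ z in ball z₀ ρ, μ z * (z - z₀) = 0

/-- NWD (medium): uses: CMP, EXT, OFB, MOM, NLF.CTB.
PROOF. `z₀ ∈ U 0`, `closedBall z₀ (2ρ) ⊆ U 0`. `ν₁ = 1` and `ν₂ z = conj(z - z₀)/ρ` on `ball z₀ ρ`, `0` elsewhere. `a_i = CT (E ν_i) c`. There is `(s,t) ≠ (0,0)` with `s a₁ + t a₂ = 0`, `‖s‖ + ‖t‖ ≤ 1`. `ν = s ν₁ + t ν₂`, `μ = E ν = s E ν₁ + t E ν₂`, `CT μ c = 0`. OFB and MOM: `∫_B ν = ∫_B ν (z - z₀) = 0`. With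
`p z = conj s + conj t (z-z₀)/ρ` one has `ν = conj p` on `B`, so `∫_B ‖p‖² = 0`, `p = 0` on `B` (continuous), `s = t = 0`. Contradiction. -/
def NWD_stmt : Prop := ∀ (n : ℕ) (c : ℂ) (U : ℕ → Set ℂ), 2 ≤ n → ‖c‖ ≤ 3 → ¬ Wand n c U

/-- EMP (short): the interior of the filled Julia set is empty. uses: WSQ, NWD. -/
def EMP_stmt : Prop := ∀ (n : ℕ) (c : ℂ), 2 ≤ n → ‖c‖ ≤ 3 → AR n c → interior (filled n c) = ∅

/-! ## Part V: the vector field -/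

/-- SCH (medium): a theorem of Schottky type. `Pool.Agent.helper54.CR.landau`.
PROOF. At `y ∈ ball a (ρ/2)` Landau on `ball y (ρ/2)`: `‖F'/F‖ ≤ (8000/ρ)(1+|log‖F y‖|)`. Let `x ∈ ball a (ρ/2)`, `t ↦ y(t) = a + t (x-a)`. If `‖F x‖ > M`, let `t₀` be the last time with `‖F (y t₀)‖ ≤ M`; on `[t₀,1]` `log‖F‖ ≥ 0` and `|d/dt log‖F‖| ≤ 4000 (1 + log‖F‖)`, so `1 + log‖F x‖ ≤ e^4000 (1 + log M)` (Gronwall, or
monotonicity of `log(1+log‖F‖) - 4000 t`). `M' = exp(e^4000 (1 + log M))` (`≥ M`). -/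
def SCH_stmt : Prop := ∀ M : ℝ, 1 ≤ M → ∃ M' : ℝ, ∀ (F : ℂ → ℂ) (a : ℂ) (ρ : ℝ), 0 < ρ →
  DifferentiableOn ℂ F (ball a ρ) → (∀ z ∈ ball a ρ, F z ≠ 0 ∧ F z ≠ 1) → ‖F a‖ ≤ M →
  ∀ x ∈ ball a (ρ / 2), ‖F x‖ ≤ M'

/-- MBB (short): critical orbits. PROOF. If some `‖f^k 0‖ > 2` with `‖c‖ ≤ 2`, or `‖c‖ > 2`, the norms of the orbit tend to infinity (`Pool.Agent.LeadMultibrot`, `norm_pow_le_two`; or directly: `‖w‖ > max(2,‖c‖)` or `= ‖c‖ > 2` implies `‖w^n + c‖ ≥ ‖w‖(‖w‖-1)`). -/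
def MBB_stmt : Prop := ∀ (n : ℕ) (c : ℂ), 2 ≤ n →
  (c ∈ multibrot n → ‖c‖ ≤ 2 ∧ ∀ k, ‖(fc n c)^[k] 0‖ ≤ 2) ∧
  ((∃ B : ℝ, ∀ k, ‖(fc n c)^[k] 0‖ ≤ B) → c ∈ multibrot n)

/-- DSB (medium): uses: SCH, MBB.
PROOF. `D = ball c r`. `0 ∉ D` (`0 ∈ hyperbolic n`: fixed point `0`), and `z_k(c') = (fc n c')^[k] 0 ≠ 0` for `k ≥ 1`, `c' ∈ D` (otherwise `0` is periodic with multiplier `0`). So `F_k(c') = z_k(c')^n/(-c')` is holomorphic on `D` and omits `0` and `1` (`z_k^n = -c'` would give `z_(k+1) = 0`). Let `A = D ∩ multibrot n ∋ c`. If `c₁ ∈ A` and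
`ball c₁ ρ ⊆ D`, then `‖F_k c₁‖ ≤ 2^n/‖c₁‖` for all `k`, so by SCH `‖F_k‖ ≤ M'` on `ball c₁ (ρ/2)`, the critical orbits are bounded and `ball c₁ (ρ/2) ⊆ A` (MBB). So `A` is open, and closed in `D` (apply this to `c₁ ∈ A` near a limit point). `D` is connected. -/
def DSB_stmt : Prop := ∀ (n : ℕ) (c : ℂ) (r : ℝ), 2 ≤ n → 0 < r → c ∈ multibrot n →
  Disjoint (ball c r) (hyperbolic n) → ball c r ⊆ multibrot n

/-- MLN (short): uses: MBB, BAS. PROOF. If `mlt n N c z = 0` then `f^j z = 0` for some `j < N` (product formula), so `‖f^N z‖ = ‖f^(N-j) 0‖ ≤ 2` (MBB). -/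
def MLN_stmt : Prop := ∀ (n N : ℕ) (c z : ℂ), 2 ≤ n → c ∈ multibrot n → 4 ≤ ‖(fc n c)^[N] z‖ →
  ∀ j ≤ N, mlt n j c z ≠ 0

/-- MOT (medium): the motion with fixed `N`-th image. uses: MLN; MPS.ZC0 (proved: `Pool/Agent/helper92/MP/ZC0.lean`).
PROOF. `P c' = (X ^ n + C c')^[N]` composed (as a polynomial in `X`) minus `C ζ`, `ζ = f^N z`: monic of degree `n ^ N` (`N ≥ 1`; `N = 0` is trivial: `w = z` constant), coefficients polynomial in `c'`; at a root `w`: `(fc n c')^[N] w = ζ`, `4 ≤ ‖ζ‖`, so the derivative `mlt n N c' w ≠ 0` (MLN for `c'`). ZC0. -/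
def MOT_stmt : Prop := ∀ (n N : ℕ) (c : ℂ) (r : ℝ), 2 ≤ n → 0 < r → ball c r ⊆ multibrot n →
  ∀ z : ℂ, 4 ≤ ‖(fc n c)^[N] z‖ → ∃ w : ℂ → ℂ, DifferentiableOn ℂ w (ball c r) ∧ w c = z ∧
    ∀ c' ∈ ball c r, (fc n c')^[N] (w c') = (fc n c)^[N] z

/-- MOD (medium): the velocity. uses: MLN, BAS.
PROOF. `w_j(c') = (fc n c')^[j] (w c')` (holomorphic), `w_(j+1) = w_j^n + c'`, so at `c`: `w_(j+1)' = fd n (f^j z) w_j' + 1`, `w_N' = 0`. By downward induction `w_j' = -∑_(i < N-j) 1/(f^(i+1))'(f^j z)`, with `(f^(i+1))'(f^j z) · fd n(f^(j-1) z) = (f^(i+2))'(f^(j-1) z)` and all these factors are `≠ 0`. `j = 0`. -/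
def MOD_stmt : Prop := ∀ (n N : ℕ) (c : ℂ) (r : ℝ) (w : ℂ → ℂ), 2 ≤ n → 0 < r →
  DifferentiableOn ℂ w (ball c r) →
  (∀ c' ∈ ball c r, (fc n c')^[N] (w c') = (fc n c)^[N] (w c)) → mlt n N c (w c) ≠ 0 →
  deriv w c = SN n c N (w c)

/-- UNQ (medium): the motions do not collide. uses: MLN.
PROOF. `A = {c' ∈ ball c r | w₁ c' = w₂ c'}` is closed in the ball. It is open: `0 = (fc n c')^[N] (w₁ c') - (fc n c')^[N] (w₂ c') = (w₁ c' - w₂ c') Q(c', w₁ c', w₂ c')`, `Q` continuous (divided difference of a polynomial) with `Q(c', w, w) = mlt n N c' w ≠ 0` (MLN) for `w = w₁ c' = w₂ c'`. So if `A` is not empty it contains `c`. -/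
def UNQ_stmt : Prop := ∀ (n N : ℕ) (c : ℂ) (r : ℝ) (w₁ w₂ : ℂ → ℂ) (ζ₁ ζ₂ : ℂ), 2 ≤ n → 0 < r →
  ball c r ⊆ multibrot n → DifferentiableOn ℂ w₁ (ball c r) → DifferentiableOn ℂ w₂ (ball c r) →
  4 ≤ ‖ζ₁‖ → 4 ≤ ‖ζ₂‖ → (∀ c' ∈ ball c r, (fc n c')^[N] (w₁ c') = ζ₁) →
  (∀ c' ∈ ball c r, (fc n c')^[N] (w₂ c') = ζ₂) → w₁ c ≠ w₂ c → ∀ c' ∈ ball c r, w₁ c' ≠ w₂ c'

/-- CRI (medium): uses: MLN, MOT, MOD, UNQ; `Pool.Agent.helper54.CR.landau`.
PROOF. `a = b` is trivial. Otherwise let `w₀, w₁, w₂` be the motions of `z, z+a, z+b` (MOT); they are pairwise different on the ball (UNQ). `F = (w₁ - w₀)/(w₂ - w₀)` omits `0` and `1`, `F c = a/b`, and by MOD `F'/F` at `c` is the expression inside the norm. `landau` on `ball c r`. -/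
def CRI_stmt : Prop := ∀ (n N : ℕ) (c : ℂ) (r : ℝ), 2 ≤ n → 0 < r → ball c r ⊆ multibrot n →
  CR (4000 / r) (SN n c N) {z | 4 ≤ ‖(fc n c)^[N] z‖}

/-- LMV (medium/long): the limit on the basin of infinity. uses: BAS, MBB, MLN.
PROOF. Let `z ∉ K`; `‖f^j z‖ ≥ 4` for `j ≥ j₀` (also near `z`; `exists_of_notMem_filled`), so `mlt n (j+1) c z = mlt n j₀ c z ∏_(j₀ ≤ i ≤ j) fd n (f^i z)` is not `0` (MLN) and each factor is at least `n 4^(n-1) ≥ 8`: the series converges like `8^(-j)`, locally uniformly (so the sum is holomorphic; terms are holomorphic: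
iterates are polynomials). Shift: `mlt n (j+2) c z = mlt n (j+1) c (f z) fd n z`, so `VV (f z) = fd n z (VV z + 1/fd n z)`. For `‖z‖ ≥ 4`: `‖mlt n (j+1) c z‖ ≥ 2 ‖z‖ 8^j`, sum `≤ (8/7)/(2‖z‖)`. -/
def LMV_stmt : Prop := ∀ (n : ℕ) (c : ℂ), 2 ≤ n → c ∈ multibrot n →
  (∀ z ∉ filled n c, ∀ᶠ N in atTop, 4 ≤ ‖(fc n c)^[N] z‖) ∧
  (∀ z ∉ filled n c, Tendsto (fun N => SN n c N z) atTop (𝓝 (VV n c z))) ∧
  (∀ z ∉ filled n c, VV n c (z ^ n + c) = fd n z * VV n c z + 1) ∧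
  DifferentiableOn ℂ (VV n c) (filled n c)ᶜ ∧ (∀ z : ℂ, 4 ≤ ‖z‖ → ‖VV n c z‖ ≤ 1 / ‖z‖)

/-- CRV (short): uses: CRI, LMV. PROOF. Limit `N → ∞` in CRI. -/
def CRV_stmt : Prop := ∀ (n : ℕ) (c : ℂ) (r : ℝ), 2 ≤ n → 0 < r → ball c r ⊆ multibrot n →
  CR (4000 / r) (VV n c) (filled n c)ᶜ

/-- EXV (medium): extension by uniform continuity. A general lemma.
PROOF. (1) Bound on `Ω ∩ ball 0 4`: `CR` for `(z; 5 - z, 6 - z)`: `‖(V 5 - V z)/(5-z) - (V 6 - V z)/(6-z)‖ ≤ M (1 + log 9)`, and the coefficient of `V z` is `1/(6-z) - 1/(5-z)`, of modulus `1/‖(5-z)(6-z)‖ ≥ 1/90`; so `‖V z‖ ≤ B`. (2) For `z, z₁ ∈ Ω ∩ ball 0 4`, `a = z₁ - z`, `b = 5 - z` (`1 ≤ ‖b‖ ≤ 9`):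
`‖V z₁ - V z‖ ≤ ‖a‖ (M (1 + |log(‖a‖/‖b‖)|) + B + 1)`, so `V` is uniformly continuous on `Ω ∩ ball 0 4`, and it is continuous on the open set `Ω ⊇ {4 ≤ ‖z‖}`; `Ω` is dense: `v` = extension (`DenseInducing.extend`, or the limits along `𝓝[Ω] z` exist). (3) the inequality for all `z, a ≠ 0, b ≠ 0` is the limit of the inequality for
`z_k → z`, `a_k → a`, `b_k → b` with `z_k, z_k + a_k, z_k + b_k ∈ Ω` (density). -/
def EXV_stmt : Prop := ∀ (V : ℂ → ℂ) (Ω : Set ℂ) (M : ℝ), 0 ≤ M → IsOpen Ω → Dense Ω →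
  {z : ℂ | 4 ≤ ‖z‖} ⊆ Ω → (∀ z : ℂ, 4 ≤ ‖z‖ → ‖V z‖ ≤ 1) → ContinuousOn V Ω → CR M V Ω →
  ∃ v : ℂ → ℂ, Continuous v ∧ EqOn v V Ω ∧ CR M v univ

/-- WKA (medium/long): difference quotients. A general lemma.
PROOF. `u_j z = (1/(2πi s²)) ∮_(|a|=s) v(z+a) da`, `s = 1/(j+1)`: `= (1/(2π s)) ∫_0^(2π) e^(iθ) v(z + s e^(iθ)) dθ`, continuous in `z`. As `∮ v z da = 0` and `∮ κ a da = 0`, with `κ = (v(z+s) - v z)/s`: `u_j z = (1/(2πi s²)) ∮ [(v(z+a) - v z)/a - κ] a da`, bounded by `(1/(2π s²)) · 2π s · M s = M` (CR with `‖a‖ = ‖b‖ = s`: `log 1 = 0`).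
For `φ` smooth with compact support: `∫ u_j φ = (1/(2π s)) ∫_θ e^(iθ) ∫_z v(z) φ(z - s e^(iθ)) = -∫ v(z) D_s φ(z)`, `D_s φ z = (1/(2π s)) ∫_θ e^(iθ) φ(z + s e^(iθ)) dθ` (replace `θ` by `θ + π`), and `D_s φ → dbar φ` uniformly with supports in a fixed compact set (Taylor: `φ(z + h) = φ z + A h + B conj h + O(‖h‖²)`, `B = dbar φ z`; `∫ e^(iθ) = 0`,
`∫ e^(2iθ) = 0`). -/
def WKA_stmt : Prop := ∀ (v : ℂ → ℂ) (M : ℝ), 0 ≤ M → Continuous v → CR M v univ →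
  ∃ u : ℕ → ℂ → ℂ, (∀ j, Continuous (u j)) ∧ (∀ j z, ‖u j z‖ ≤ M) ∧
  ∀ φ : ℂ → ℂ, ContDiff ℝ 2 φ → HasCompactSupport φ →
    Tendsto (fun j => ∫ z : ℂ, u j z * φ z) atTop (𝓝 (-∫ z : ℂ, v z * dbar φ z))

/-- WKB (medium): weak compactness. A general lemma.
PROOF. Let `κ` be the finite measure with density `w(z) = (1+‖z‖²)^(-2)` and `H = L²(κ)` (complex Hilbert space). `u j ∈ H`, `‖u j‖_H ≤ M √κ(ℂ)`. Along an ultrafilter `𝒰 ≤ atTop` the functional `y ↦ lim ⟨y, u j⟩` exists, is bounded; by Riesz (`InnerProductSpace.toDual`, careful with the conjugate linearity) it is `⟨y, m⟩`. For `φ` continuous with compact support let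
`y = conj(φ)/w ∈ H`: `⟨y, u j⟩ = ∫ (φ/w) u j dκ = ∫ u j φ`. So `∫ u j φ → ∫ m φ`. `‖m‖ ≤ M` a.e.: test with `y = 1_A m/‖m‖`, `A = {‖m‖ ≥ M + ε}`: `(M+ε) κ(A) ≤ ∫_A ‖m‖ dκ = lim ⟨y, u j⟩ ≤ M κ(A)`. Choose a measurable representative, set to `0` where `‖m‖ > M`. -/
def WKB_stmt : Prop := ∀ (u : ℕ → ℂ → ℂ) (M : ℝ), 0 ≤ M → (∀ j, Measurable (u j)) →
  (∀ j z, ‖u j z‖ ≤ M) → ∃ (𝒰 : Ultrafilter ℕ) (m : ℂ → ℂ), (𝒰 : Filter ℕ) ≤ atTop ∧ Measurable m ∧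
    (∀ z, ‖m z‖ ≤ M) ∧ ∀ φ : ℂ → ℂ, Continuous φ → HasCompactSupport φ →
      Tendsto (fun j => ∫ z : ℂ, u j z * φ z) 𝒰 (𝓝 (∫ z : ℂ, m z * φ z))

/-- WEY (medium): Weyl's lemma. A general lemma.
(`C²` test functions throughout; `C^∞` ones are `C²`.) PROOF. Let `η_ε` be smooth bumps (`ContDiffBump`), `u_ε z = ∫ u(w) η_ε(z - w) dw` smooth (`contDiff` of convolutions), `dbar u_ε z = ∫ u(w) (dbar η_ε)(z-w) dw = -∫ u(w) dbar_w [η_ε(z - w)] dw = 0`. So `u_ε` is real differentiable with the Cauchy-Riemann equations, hence holomorphic; `u_ε → u` locally uniformly as `ε → 0`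
(`u` is continuous), so `u` is holomorphic (`TendstoLocallyUniformlyOn.differentiableOn`). (Alternative: Morera or circle means.) -/
def WEY_stmt : Prop := ∀ u : ℂ → ℂ, Continuous u →
  (∀ φ : ℂ → ℂ, ContDiff ℝ 2 φ → HasCompactSupport φ → ∫ z : ℂ, u z * dbar φ z = 0) →
  Differentiable ℂ u

/-- DIS (medium): the derivative of the Cauchy transform. uses: CPF, NLF.CTB (and MPS.MI).
PROOF. Fubini: `∫_b CT μ b dbar φ b = ∫_z μ z ∫_b dbar φ b/(z - b) = ∫_z μ z (π φ z)` (CPF: `∫ dbar φ b/(b - z) = -π φ z`). Integrability: `‖μ z‖‖dbar φ b‖/‖z-b‖`, both factors bounded with compact supports, `∫_z` of `1/‖z-b‖` over `ball 0 4` is `≤ 2π(4+‖b‖)` (MI). -/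
def DIS_stmt : Prop := ∀ μ : ℂ → ℂ, Measurable μ → (∀ z, ‖μ z‖ ≤ 1) → (∀ z, μ z ≠ 0 → ‖z‖ < 4) →
  ∀ φ : ℂ → ℂ, ContDiff ℝ 1 φ → HasCompactSupport φ →
    ∫ b : ℂ, NLF.CT μ b * dbar φ b = Real.pi * ∫ z : ℂ, μ z * φ z

/-- HLZ (medium): the distributional derivative vanishes where `v` is holomorphic.
PROOF. `∫ m φ = 0` for all `C²` functions `φ` with compact support in the open set `Ω`: `∫ v dbar φ = 0` since `v φ` (extended by `0`) is `C¹` with compact support, `dbar (v φ) = v dbar φ` on `Ω`, and the integral of `dbar` of a compactly supported `C¹` function is `0` (`integral_fderiv..`: integral of a directional derivative of a compactly supported function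
vanishes, e.g. `integral_mul_fderiv_eq_neg_fderiv_mul_of_integrable` or Fubini). Then `IsOpen.ae_eq_zero_of_integral_contDiff_smul_eq_zero` (real valued `φ`). -/
def HLZ_stmt : Prop := ∀ (v m : ℂ → ℂ) (Ω : Set ℂ) (M : ℝ), IsOpen Ω → Continuous v →
  DifferentiableOn ℂ v Ω → Measurable m → (∀ z, ‖m z‖ ≤ M) →
  (∀ φ : ℂ → ℂ, ContDiff ℝ 2 φ → HasCompactSupport φ →
    ∫ z : ℂ, v z * dbar φ z = -∫ z : ℂ, m z * φ z) → ∀ᵐ z : ℂ, z ∈ Ω → m z = 0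

/-- REP (medium): representation. uses: WKA, WKB, WEY, DIS, HLZ, NLF.CTB.
PROOF. WKA and WKB give `m` with `∫ m φ = -∫ v dbar φ`. HLZ for `Ω = Kᶜ`: `m = 0` a.e. on `Kᶜ`; replace `m` by `0` there. `u = v + (1/π) CT m` (`CT m = M' CT (m/M')` with `M' = max M 1`) is continuous and `∫ u dbar φ = 0` (DIS), so it is entire (WEY) and tends to `0` at infinity (CTB): `u = 0` (Liouville). -/
def REP_stmt : Prop := ∀ (v : ℂ → ℂ) (M : ℝ) (K : Set ℂ), 0 ≤ M → IsClosed K → K ⊆ ball 0 4 →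
  Continuous v → DifferentiableOn ℂ v Kᶜ → Tendsto v (Bornology.cobounded ℂ) (𝓝 0) → CR M v univ →
  ∃ m : ℂ → ℂ, Measurable m ∧ (∀ z, ‖m z‖ ≤ M) ∧ (∀ z, m z ≠ 0 → z ∈ K) ∧
    (∀ b, v b = -(1 / Real.pi) * NLF.CT m b) ∧
    ∀ φ : ℂ → ℂ, ContDiff ℝ 2 φ → HasCompactSupport φ →
      ∫ z : ℂ, v z * dbar φ z = -∫ z : ℂ, m z * φ z

/-- PBK (medium): the Cauchy transform of a pull-back. NLF.CB, NLF.CTB, NLF.T1, MPS.TBD.
PROOF. `μ' y = μ (f y) conj(fd y)/fd y` has `‖μ'‖ ≤ 1` and support in `ball 0 4` (`TBD`: `‖f y‖ < 4` implies `‖y‖ < 4`), so it satisfies CTB. `b = 0`: both sides `0`. `b ≠ 0`: as in `NLF.IP`/`NLF.REL` (`Pool/Agent/helper11/NL/IP.lean`, `helper60/NL/REL.lean`): CB with `F = μ' q`, `q = 1/(z-b)`, `K = univ`: for `z ≠ c`, `y = y_j`: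
`μ' y q y/‖fd y‖² = μ z q y/(fd y)²`, so `∫ μ' q = ∫ μ TQ q` and T1 gives `TQ q z = (1/fd b)(1/(z - f b) - 1/(z-c))`. -/
def PBK_stmt : Prop := ∀ (n : ℕ) (c : ℂ) (μ : ℂ → ℂ), 2 ≤ n → ‖c‖ ≤ 3 → Measurable μ →
  (∀ z, ‖μ z‖ ≤ 1) → (∀ z, μ z ≠ 0 → ‖z‖ < 4) → ∀ b : ℂ,
    fd n b * NLF.CT (fun z => μ (z ^ n + c) * (starRingEnd ℂ) (fd n z) / fd n z) b =
      NLF.CT μ (b ^ n + c) - NLF.CT μ c

/-- IVM (short/medium): invariance. uses: PBK, NLF.CTB, NLF.CT0.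
PROOF. `μ'` as in PBK. For `b ≠ 0`: `CT μ' b = CT μ b` (PBK and the hypothesis, `fd n b ≠ 0`), also for `b = 0` by continuity. `(μ' - μ)/2` satisfies CT0. -/
def IVM_stmt : Prop := ∀ (n : ℕ) (c : ℂ) (μ : ℂ → ℂ), 2 ≤ n → ‖c‖ ≤ 3 → Measurable μ →
  (∀ z, ‖μ z‖ ≤ 1) → (∀ z, μ z ≠ 0 → ‖z‖ < 4) →
  (∀ b, fd n b * NLF.CT μ b = NLF.CT μ (b ^ n + c) - NLF.CT μ c) →
  ∀ᵐ z : ℂ, μ (z ^ n + c) * (starRingEnd ℂ) (fd n z) / fd n z = μ z

/-- BRG (medium): THE BRIDGE. uses: BAS, EMP, JFR, DSB, MBB, LMV, CRV, EXV, REP, IVM, MPS.ZN (proved: `Pool/Agent/helper99/MP/ZN.lean` with ZR, ZBIG; see `Pool/Agent/helper36/MP/All.lean`).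
PROOF. ZN: `AR n c'` for `c' ∈ ball c r`; MBB: `‖c‖ ≤ 2`. EMP: `interior K = ∅`, so `Kᶜ` is dense and (JFR) the Julia set is `K`. DSB: `ball c r ⊆ multibrot n`. CRV, LMV, EXV with `V = VV n c`, `Ω = Kᶜ` (`K ⊆ ball 0 4`): `v`. The functional equation holds on `Kᶜ` (LMV; `f (Kᶜ) ⊆ Kᶜ`) and by continuity everywhere. `v → 0` at infinity (LMV). REP with
`M = 4000/r`: `m`. With `μ₁ = m/M`: `v = -(M/π) CT μ₁`, so the functional equation and its value at `z = 0` (`v c = 1`) give the hypothesis of IVM: `m` is invariant. If `m = 0` a.e. then `v = 0`, contradiction to `v c = 1`. `μ z = m z/‖m z‖` (`0` where `m = 0`): `‖m (f z)‖ = ‖m z‖` a.e., so `μ` is invariant. -/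
def BRG_stmt : Prop := ∀ (n : ℕ) (c : ℂ) (r : ℝ), 2 ≤ n → 0 < r → c ∈ multibrot n →
  Disjoint (ball c r) (hyperbolic n) →
  (∀ c' ∈ ball c r, AR n c' ∧ c' ∈ multibrot n) ∧ interior (filled n c) = ∅ ∧
  juliaSet (fun z : ℂ => z ^ n + c) = filled n c ∧
  ∃ v m μ : ℂ → ℂ, Continuous v ∧ CR (4000 / r) v univ ∧ (∀ z, v (z ^ n + c) = fd n z * v z + 1) ∧
    DifferentiableOn ℂ v (filled n c)ᶜ ∧ (∀ z : ℂ, 4 ≤ ‖z‖ → ‖v z‖ ≤ 1 / ‖z‖) ∧
    Measurable m ∧ (∀ z, ‖m z‖ ≤ 4000 / r) ∧ (∀ z, m z ≠ 0 → z ∈ filled n c) ∧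
    (∀ b, v b = -(1 / Real.pi) * NLF.CT m b) ∧
    (∀ φ : ℂ → ℂ, ContDiff ℝ 2 φ → HasCompactSupport φ →
      ∫ z : ℂ, v z * dbar φ z = -∫ z : ℂ, m z * φ z) ∧
    (∀ᵐ z : ℂ, m (z ^ n + c) * (starRingEnd ℂ) (fd n z) / fd n z = m z) ∧
    IsInvariantLineField (fun z : ℂ => z ^ n + c) μ ∧ ∀ z, m z = ‖m z‖ * μ z

end BR
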