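import Pool.Agent.helper45.BR.All

/-!
# Project br:, corollary

If `c` is in the Multibrot set `M_n` and `z ^ n + c` has no invariant line field, then `c` is a limit of
hyperbolic parameters.
-/

set_option autoImplicit false

open Complex Metric Set Filter Topology MeasureTheory MPS Pool.Agent.helper98.ILF
  Pool.Agent.helper16.Multibrot

noncomputable section

namespace BR

theorem exists_ball {n : ℕ} {c : ℂ} (h : c ∉ closure (hyperbolic n)) :
    ∃ r : ℝ, 0 < r ∧ Disjoint (ball c r) (hyperbolic n) := by
  rw [Metric.mem_closure_iff] at h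
  push Not at h
  obtain ⟨r, hr, h'⟩ := h
  refine ⟨r, hr, Set.disjoint_left.2 fun b hb hb' => ?_⟩
  have := h' b hb'
  rw [mem_ball, dist_comm] at hb
  linarith

/-- `c ∈ M_n` and no invariant line field: `c` is in the closure of the hyperbolic parameters. -/
theorem mem_closure_of_no_line_field {n : ℕ} {c : ℂ} (hn : 2 ≤ n) (hc : c ∈ multibrot n)
    (h : ¬ HasInvariantLineField (fun z : ℂ => z ^ n + c)) : c ∈ closure (hyperbolic n) := by
  by_contra h'
  obtain ⟨r, hr, hd⟩ := exists_ball h'
  obtain ⟨-, -, -, v, m, μ, -, -, -, -, -, -, -, -, -, -, -, hμ, -⟩ := bridge n c r hn hr hc hd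
  exact h ⟨μ, hμ⟩

/-- If the Julia set of `z ^ n + c`, `c ∈ M_n`, has zero area, `c` is in the closure of the hyperbolic
parameters. -/
theorem mem_closure_of_area_zero {n : ℕ} {c : ℂ} (hn : 2 ≤ n) (hc : c ∈ multibrot n)
    (h : volume (juliaSet (fun z : ℂ => z ^ n + c)) = 0) : c ∈ closure (hyperbolic n) :=
  mem_closure_of_no_line_field hn hc (no_line_field h)

end BR
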