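import Pool.Agent.helper45.BR.Spec
import Pool.Agent.helper1.BR.LIM
import Pool.Agent.helper11.BR.CTR
import Pool.Agent.helper11.BR.NPP
import Pool.Agent.helper12.BR.HLZ
import Pool.Agent.helper14.BR.INJ
import Pool.Agent.helper19.BR.WKB
import Pool.Agent.helper2.BR.REC
import Pool.Agent.helper23.BR.DIS
import Pool.Agent.helper24.BR.MBB
import Pool.Agent.helper24.BR.SCH
import Pool.Agent.helper28.BR.MOM
import Pool.Agent.helper29.BR.LGH
import Pool.Agent.helper29.BR.MOD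
import Pool.Agent.helper30.BR.RDF
import Pool.Agent.helper31.BR.MOT
import Pool.Agent.helper31.BR.NPC
import Pool.Agent.helper33.BR.LMV
import Pool.Agent.helper33.BR.OFB
import Pool.Agent.helper43.BR.JFR
import Pool.Agent.helper46.BR.MLN
import Pool.Agent.helper48.BR.CRI
import Pool.Agent.helper48.BR.VFX
import Pool.Agent.helper49.BR.PRM
import Pool.Agent.helper53.BR.EXV
import Pool.Agent.helper53.BR.HUL
import Pool.Agent.helper55.BR.WEY
import Pool.Agent.helper58.BR.BRG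
import Pool.Agent.helper65.BR.POL
import Pool.Agent.helper67.BR.CMP
import Pool.Agent.helper67.BR.IVM
import Pool.Agent.helper67.BR.RLB
import Pool.Agent.helper70.BR.PBK
import Pool.Agent.helper76.BR.CPB
import Pool.Agent.helper77.BR.NWD
import Pool.Agent.helper82.BR.ESC
import Pool.Agent.helper84.BR.CPF
import Pool.Agent.helper85.BR.DSB
import Pool.Agent.helper90.BR.MXP
import Pool.Agent.helper90.BR.REP
import Pool.Agent.helper90.BR.UNQ
import Pool.Agent.helper91.BR.CRV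
import Pool.Agent.helper91.BR.WND
import Pool.Agent.helper95.BR.EXT
import Pool.Agent.helper95.BR.WKA
import Pool.Agent.helper97.BR.EMP
import Pool.Agent.helper98.BR.WSQ
import Pool.Agent.helper25.BR.BAS
import Pool.Agent.helper89.BR.SEQ
import Pool.Agent.helper74.NL.Z
import Pool.Agent.helper57.V3.TMO
import Pool.Agent.helper91.V3.THU
import Pool.Agent.helper92.MP.MI
import Pool.Agent.helper91.MP.TBD
import Pool.Agent.helper99.MP.ZN
import Pool.Agent.helper52.MP.ZR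
import Pool.Agent.helper25.MP.ZL

/-!
# Project br:, assembly

`bridge : BRG_stmt`: if `c ∈ M_n` is not in the closure of the hyperbolic parameters, then the filled Julia
set of `z ^ n + c` has empty interior and there is an invariant line field (with all the extra information in
`BRG_stmt`).
-/

set_option autoImplicit false

open Complex Metric Set Filter Topology MeasureTheory MPS Pool.Agent.helper98.ILF
  Pool.Agent.helper16.Multibrot

noncomputable section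

namespace BR

theorem Z_BAS : BAS_stmt := BAS
theorem Z_SEQ : SEQ_stmt := SEQ
theorem Z_CTB : NLF.CTB_stmt := NLF.Z_CTB
theorem Z_CTH : NLF.CTH_stmt := NLF.CTH
theorem Z_CT0 : NLF.CT0_stmt := NLF.CT0 NLF.Z_CTB
theorem Z_CB : NLF.CB_stmt := NLF.CB MCV
theorem Z_NB : NLF.NB_stmt := NLF.NB MCV
theorem Z_T1 : NLF.T1_stmt := NLF.T1
theorem Z_TBD : MPS.TBD_stmt := MPS.TBD_main
theorem Z_MI : MPS.MI_stmt := MPS.MI
theorem Z_ZN : MPS.ZN_stmt := MPS.ZN MPS.ZR MPS.ZBIG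
theorem Z_TMO : V3.TMO_stmt := V3.TMO
theorem Z_THU : V3.THU_stmt := V3.THU

theorem Z_WND : WND_stmt := WND
theorem Z_CPF : CPF_stmt := CPF
theorem Z_POL : POL_stmt := POL Z_WND Z_CPF
theorem Z_PRM : PRM_stmt := PRM Z_POL
theorem Z_CMP : CMP_stmt := CMP Z_BAS
theorem Z_MXP : MXP_stmt := MXP
theorem Z_HUL : HUL_stmt := HUL Z_MXP Z_CMP
theorem Z_LGH : LGH_stmt := LGH Z_PRM
theorem Z_INJ : INJ_stmt := INJ Z_BAS Z_CMP Z_HUL Z_LGH
theorem Z_NPP : NPP_stmt := NPP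
theorem Z_CTR : CTR_stmt := CTR Z_NPP
theorem Z_LIM : LIM_stmt := LIM
theorem Z_ESC : ESC_stmt := ESC Z_CMP Z_LIM
theorem Z_REC : REC_stmt := REC Z_TMO
theorem Z_CPB : CPB_stmt := CPB Z_TMO
theorem Z_VFX : VFX_stmt := VFX Z_SEQ Z_CPB Z_TMO Z_THU
theorem Z_RDF : RDF_stmt := RDF Z_SEQ Z_VFX Z_PRM
theorem Z_NPC : NPC_stmt := NPC Z_CMP Z_HUL Z_NPP Z_CTR Z_ESC Z_REC Z_RDF
theorem Z_WSQ : WSQ_stmt := WSQ Z_BAS Z_CMP Z_NPC Z_INJ
theorem Z_JFR : JFR_stmt := JFR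
theorem Z_RLB : RLB_stmt := RLB Z_CB Z_NB Z_CTB Z_T1
theorem Z_OFB : OFB_stmt := OFB Z_CMP Z_JFR Z_RLB Z_CTB Z_CTH
theorem Z_EXT : EXT_stmt := EXT Z_BAS
theorem Z_MOM : MOM_stmt := MOM Z_CTB
theorem Z_NWD : NWD_stmt := NWD Z_CMP Z_EXT Z_OFB Z_MOM Z_CTB
theorem Z_EMP : EMP_stmt := EMP Z_WSQ Z_NWD
theorem Z_SCH : SCH_stmt := SCH
theorem Z_MBB : MBB_stmt := MBB
theorem Z_DSB : DSB_stmt := DSB Z_SCH Z_MBB
theorem Z_MLN : MLN_stmt := MLN Z_MBB Z_BAS
theorem Z_LMV : LMV_stmt := LMV Z_BAS Z_MBB Z_MLN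
theorem Z_MOT : MOT_stmt := MOT Z_MLN
theorem Z_MOD : MOD_stmt := MOD
theorem Z_UNQ : UNQ_stmt := UNQ Z_MLN
theorem Z_CRI : CRI_stmt := CRI Z_MLN Z_MOT Z_MOD Z_UNQ
theorem Z_CRV : CRV_stmt := CRV Z_CRI Z_LMV
theorem Z_EXV : EXV_stmt := EXV
theorem Z_WKA : WKA_stmt := WKA
theorem Z_WKB : WKB_stmt := WKB
theorem Z_WEY : WEY_stmt := WEY
theorem Z_DIS : DIS_stmt := DIS Z_CPF Z_MI
theorem Z_HLZ : HLZ_stmt := HLZ
theorem Z_REP : REP_stmt := REP Z_WKA Z_WKB Z_WEY Z_DIS Z_HLZ Z_CTB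
theorem Z_PBK : PBK_stmt := PBK Z_CB Z_CTB Z_T1 Z_TBD
theorem Z_IVM : IVM_stmt := IVM Z_PBK Z_CTB Z_CT0

/-- **The bridge.** -/
theorem bridge : BRG_stmt :=
  BRG Z_BAS Z_EMP Z_JFR Z_DSB Z_MBB Z_LMV Z_CRV Z_EXV Z_REP Z_IVM Z_ZN

end BR
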